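import Mathlib

/-!
# Sylver coinage: the game predicates and the ender theorem
-/

set_option autoImplicit false

namespace Pool.Agent.Sylver

/-- The player to move wins from the position `S` (naming 1 loses). -/
def IsWin (S : Finset ℕ) : Prop :=
  ∀ (Win Lose : Finset ℕ → Prop),
    (∀ S : Finset ℕ,
      (∃ m : ℕ, m ≠ 1 ∧ m ∉ AddSubmonoid.closure (S : Set ℕ) ∧ Lose (insert m S)) → Win S) →
    (∀ S : Finset ℕ,
      (∀ m : ℕ, m ≠ 1 → m ∉ AddSubmonoid.closure (S : Set ℕ) → Win (insert m S)) → Lose S) →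
    Win S

/-- The player to move loses from the position `S`. -/
def IsLose (S : Finset ℕ) : Prop :=
  ∀ (Win Lose : Finset ℕ → Prop),
    (∀ S : Finset ℕ,
      (∃ m : ℕ, m ≠ 1 ∧ m ∉ AddSubmonoid.closure (S : Set ℕ) ∧ Lose (insert m S)) → Win S) →
    (∀ S : Finset ℕ,
      (∀ m : ℕ, m ≠ 1 → m ∉ AddSubmonoid.closure (S : Set ℕ) → Win (insert m S)) → Lose S) →
    Lose S

theorem win_of {S : Finset ℕ} {m : ℕ} (h1 : m ≠ 1) (h2 : m ∉ AddSubmonoid.closure (S : Set ℕ))
    (h3 : IsLose (insert m S)) : IsWin S :=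
  fun W L hW hL => hW S ⟨m, h1, h2, h3 W L hW hL⟩

theorem lose_of {S : Finset ℕ}
    (h : ∀ m : ℕ, m ≠ 1 → m ∉ AddSubmonoid.closure (S : Set ℕ) → IsWin (insert m S)) :
    IsLose S :=
  fun W L hW hL => hL S fun m h1 h2 => h m h1 h2 W L hW hL

theorem lose_inv {S : Finset ℕ} (h : IsLose S) :
    ∀ m : ℕ, m ≠ 1 → m ∉ AddSubmonoid.closure (S : Set ℕ) → IsWin (insert m S) :=
  h IsWin (fun S => ∀ m : ℕ, m ≠ 1 → m ∉ AddSubmonoid.closure (S : Set ℕ) → IsWin (insert m S))
    (fun _ ⟨_, h1, h2, h3⟩ => win_of h1 h2 (lose_of h3)) (fun _ h => h)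

theorem closure_insert_congr {S T : Finset ℕ} (m : ℕ)
    (h : AddSubmonoid.closure (S : Set ℕ) = AddSubmonoid.closure (T : Set ℕ)) :
    AddSubmonoid.closure ((insert m S : Finset ℕ) : Set ℕ) =
      AddSubmonoid.closure ((insert m T : Finset ℕ) : Set ℕ) := by
  rw [Finset.coe_insert, Finset.coe_insert, Set.insert_eq, Set.insert_eq,
    AddSubmonoid.closure_union, AddSubmonoid.closure_union, h]

theorem congr_aux {S : Finset ℕ} :
    (IsWin S → ∀ T : Finset ℕ, AddSubmonoid.closure (T : Set ℕ) =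
      AddSubmonoid.closure (S : Set ℕ) → IsWin T) ∧
    (IsLose S → ∀ T : Finset ℕ, AddSubmonoid.closure (T : Set ℕ) =
      AddSubmonoid.closure (S : Set ℕ) → IsLose T) := by
  have h1 : ∀ S : Finset ℕ, (∃ m : ℕ, m ≠ 1 ∧ m ∉ AddSubmonoid.closure (S : Set ℕ) ∧
      ∀ T : Finset ℕ, AddSubmonoid.closure (T : Set ℕ) =
        AddSubmonoid.closure ((insert m S : Finset ℕ) : Set ℕ) → IsLose T) →
      ∀ T : Finset ℕ, AddSubmonoid.closure (T : Set ℕ) =
        AddSubmonoid.closure (S : Set ℕ) → IsWin T := by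
    rintro S ⟨m, hm1, hm2, hm3⟩ T hT
    exact win_of hm1 (by rwa [hT]) (hm3 _ (closure_insert_congr m hT))
  have h2 : ∀ S : Finset ℕ, (∀ m : ℕ, m ≠ 1 → m ∉ AddSubmonoid.closure (S : Set ℕ) →
      ∀ T : Finset ℕ, AddSubmonoid.closure (T : Set ℕ) =
        AddSubmonoid.closure ((insert m S : Finset ℕ) : Set ℕ) → IsWin T) →
      ∀ T : Finset ℕ, AddSubmonoid.closure (T : Set ℕ) =
        AddSubmonoid.closure (S : Set ℕ) → IsLose T := by
    intro S h T hT
    exact lose_of fun m hm1 hm2 => h m hm1 (by rwa [← hT]) _ (closure_insert_congr m hT)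
  exact ⟨fun h => h (fun S => ∀ T : Finset ℕ, AddSubmonoid.closure (T : Set ℕ) =
        AddSubmonoid.closure (S : Set ℕ) → IsWin T) (fun S => ∀ T : Finset ℕ,
        AddSubmonoid.closure (T : Set ℕ) = AddSubmonoid.closure (S : Set ℕ) → IsLose T) h1 h2,
    fun h => h (fun S => ∀ T : Finset ℕ, AddSubmonoid.closure (T : Set ℕ) =
        AddSubmonoid.closure (S : Set ℕ) → IsWin T) (fun S => ∀ T : Finset ℕ,
        AddSubmonoid.closure (T : Set ℕ) = AddSubmonoid.closure (S : Set ℕ) → IsLose T) h1 h2⟩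

theorem win_congr {S T : Finset ℕ}
    (h : AddSubmonoid.closure (T : Set ℕ) = AddSubmonoid.closure (S : Set ℕ)) (hS : IsWin S) :
    IsWin T := congr_aux.1 hS T h

theorem lose_congr {S T : Finset ℕ}
    (h : AddSubmonoid.closure (T : Set ℕ) = AddSubmonoid.closure (S : Set ℕ)) (hS : IsLose S) :
    IsLose T := congr_aux.2 hS T h

theorem le_insert (S : Finset ℕ) (m : ℕ) : AddSubmonoid.closure (S : Set ℕ) ≤
    AddSubmonoid.closure ((insert m S : Finset ℕ) : Set ℕ) :=
  AddSubmonoid.closure_mono (by simp)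

theorem mem_insert_self' (S : Finset ℕ) (m : ℕ) :
    m ∈ AddSubmonoid.closure ((insert m S : Finset ℕ) : Set ℕ) :=
  AddSubmonoid.subset_closure (by simp)

/-- Positions with finitely many legal moves are decided. -/
theorem decided (k : ℕ) : ∀ S : Finset ℕ, ((AddSubmonoid.closure (S : Set ℕ) : Set ℕ)ᶜ).Finite →
    ((AddSubmonoid.closure (S : Set ℕ) : Set ℕ)ᶜ).ncard ≤ k → IsWin S ∨ IsLose S := by
  induction k with
  | zero =>
    intro S hfin hcard
    right
    refine lose_of fun m _ hm => ?_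
    have h0 : ((AddSubmonoid.closure (S : Set ℕ) : Set ℕ)ᶜ) = ∅ := by
      rw [← Set.ncard_eq_zero hfin]; omega
    have : m ∈ ((AddSubmonoid.closure (S : Set ℕ) : Set ℕ)ᶜ) := hm
    rw [h0] at this
    exact absurd this (Set.notMem_empty _)
  | succ k ih =>
    intro S hfin hcard
    by_cases h : ∃ m : ℕ, m ≠ 1 ∧ m ∉ AddSubmonoid.closure (S : Set ℕ) ∧ IsLose (insert m S)
    · obtain ⟨m, h1, h2, h3⟩ := h
      exact Or.inl (win_of h1 h2 h3)
    · right
      refine lose_of fun m h1 h2 => ?_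
      have hss : ((AddSubmonoid.closure ((insert m S : Finset ℕ) : Set ℕ) : Set ℕ)ᶜ) ⊂
          ((AddSubmonoid.closure (S : Set ℕ) : Set ℕ)ᶜ) := by
        refine ⟨Set.compl_subset_compl.2 (le_insert S m), fun hle => ?_⟩
        exact hle (show m ∈ ((AddSubmonoid.closure (S : Set ℕ) : Set ℕ)ᶜ) from h2)
          (mem_insert_self' S m)
      have hlt := Set.ncard_lt_ncard hss hfin
      rcases ih (insert m S) (hfin.subset hss.1) (by omega) with h3 | h3
      · exact h3
      · exact absurd ⟨m, h1, h2, h3⟩ h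

/-- Strategy stealing: a position with finitely many legal moves in which some legal number `t`
becomes redundant after every other move is a win for the player to move. -/
theorem ender {S : Finset ℕ} (hfin : ((AddSubmonoid.closure (S : Set ℕ) : Set ℕ)ᶜ).Finite)
    {t : ℕ} (ht1 : t ≠ 1) (ht : t ∉ AddSubmonoid.closure (S : Set ℕ))
    (h : ∀ y : ℕ, y ≠ t → y ∉ AddSubmonoid.closure (S : Set ℕ) →
      t ∈ AddSubmonoid.closure ((insert y S : Finset ℕ) : Set ℕ)) : IsWin S := by
  by_cases h1 : ∃ y : ℕ, y ≠ 1 ∧ y ∉ AddSubmonoid.closure ((insert t S : Finset ℕ) : Set ℕ) ∧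
      IsLose (insert y (insert t S))
  · obtain ⟨y, hy1, hy2, hy3⟩ := h1
    have hyS : y ∉ AddSubmonoid.closure (S : Set ℕ) := fun hc => hy2 (le_insert S t hc)
    have hyt : y ≠ t := by
      rintro rfl
      exact hy2 (mem_insert_self' S y)
    refine win_of hy1 hyS (lose_congr ?_ hy3)
    have h2 := h y hyt hyS
    rw [Finset.insert_comm]
    apply le_antisymm
    · exact le_insert _ _
    · rw [AddSubmonoid.closure_le]
      intro s hs
      rw [Finset.coe_insert, Set.mem_insert_iff] at hs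
      rcases hs with rfl | hs
      · exact h2
      · exact AddSubmonoid.subset_closure hs
  · refine win_of ht1 ht (lose_of fun y hy1 hy2 => ?_)
    have hfin' : ((AddSubmonoid.closure ((insert y (insert t S) : Finset ℕ) : Set ℕ) : Set ℕ)ᶜ).Finite :=
      hfin.subset (Set.compl_subset_compl.2 ((le_insert S t).trans (le_insert _ y)))
    rcases decided _ _ hfin' le_rfl with h2 | h2
    · exact h2
    · exact absurd ⟨y, hy1, hy2, h2⟩ h1

end Pool.Agent.Sylver
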