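import Pool.Agent.Work.MP_d5e364_co.Game

/-!
# Telescopic positions are symmetric
-/

set_option autoImplicit false

namespace Pool.Agent.Sylver

/-- The integer `u` belongs to `T`. -/
def In (T : AddSubmonoid ℕ) (u : ℤ) : Prop := ∃ a ∈ T, (a : ℤ) = u

lemma In.nonneg {T : AddSubmonoid ℕ} {u : ℤ} (h : In T u) : 0 ≤ u := by
  obtain ⟨a, -, rfl⟩ := h
  exact Int.natCast_nonneg a

lemma in_natCast {T : AddSubmonoid ℕ} {a : ℕ} : In T (a : ℤ) ↔ a ∈ T :=
  ⟨fun ⟨b, hb, h⟩ => by rwa [← (Int.natCast_inj.1 h : b = a)], fun h => ⟨a, h, rfl⟩⟩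

lemma In.add {T : AddSubmonoid ℕ} {u v : ℤ} (hu : In T u) (hv : In T v) : In T (u + v) := by
  obtain ⟨a, ha, rfl⟩ := hu
  obtain ⟨b, hb, rfl⟩ := hv
  exact ⟨a + b, T.add_mem ha hb, by push_cast; ring⟩

lemma In.nsmul {T : AddSubmonoid ℕ} {u : ℤ} (hu : In T u) (q : ℕ) : In T (q * u) := by
  obtain ⟨a, ha, rfl⟩ := hu
  exact ⟨q * a, by simpa using T.nsmul_mem ha q, by push_cast; ring⟩

/-- `T` consists of multiples of `d`, and `T / d` is symmetric with Frobenius number `F`. -/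
structure SymD (d : ℕ) (T : AddSubmonoid ℕ) (F : ℤ) : Prop where
  dvd : ∀ a ∈ T, d ∣ a
  sym : ∀ u : ℤ, In T (d * u) ↔ ¬ In T (d * (F - u))

theorem symD_single {n : ℕ} (hn : 0 < n) : SymD n (AddSubmonoid.closure {n}) (-1) := by
  have hmem : ∀ a : ℕ, a ∈ AddSubmonoid.closure ({n} : Set ℕ) ↔ ∃ k : ℕ, a = k * n := by
    intro a
    rw [AddSubmonoid.mem_closure_singleton]
    constructor
    · rintro ⟨k, rfl⟩; exact ⟨k, by simp⟩
    · rintro ⟨k, rfl⟩; exact ⟨k, by simp⟩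
  have hIn : ∀ u : ℤ, In (AddSubmonoid.closure ({n} : Set ℕ)) (n * u) ↔ 0 ≤ u := by
    intro u
    constructor
    · rintro h
      have h1 := h.nonneg
      have h2 : (0 : ℤ) < n := by exact_mod_cast hn
      exact nonneg_of_mul_nonneg_right h1 h2
    · intro h
      obtain ⟨k, rfl⟩ := Int.eq_ofNat_of_zero_le h
      exact ⟨k * n, (hmem _).2 ⟨k, rfl⟩, by push_cast; ring⟩
  refine ⟨fun a ha => ?_, fun u => ?_⟩
  · obtain ⟨k, rfl⟩ := (hmem a).1 ha
    exact Dvd.intro_left k rfl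
  · rw [hIn, hIn]
    omega

/-- The gluing lemma: adding `x` with `x / gcd(x,d)` in `T / d` keeps symmetry. -/
theorem symD_glue {d : ℕ} (hd : 0 < d) {T : AddSubmonoid ℕ} {F : ℤ} (hT : SymD d T F) {x : ℕ}
    (hx : 0 < x) (hz : d * (x / Nat.gcd x d) ∈ T) :
    SymD (Nat.gcd x d) (T ⊔ AddSubmonoid.closure {x})
      ((d / Nat.gcd x d : ℕ) * F + ((d / Nat.gcd x d : ℕ) - 1) * (x / Nat.gcd x d : ℕ)) := by
  set e := Nat.gcd x d with he
  have he0 : 0 < e := Nat.gcd_pos_of_pos_left _ hx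
  obtain ⟨z, hz'⟩ : e ∣ x := Nat.gcd_dvd_left x d
  obtain ⟨δ, hδ'⟩ : e ∣ d := Nat.gcd_dvd_right x d
  have hzx : x / e = z := by rw [hz', Nat.mul_div_cancel_left _ he0]
  have hδd : d / e = δ := by rw [hδ', Nat.mul_div_cancel_left _ he0]
  rw [hzx] at hz ⊢
  rw [hδd]
  have hδ0 : 0 < δ := by
    rcases Nat.eq_zero_or_pos δ with h | h
    · rw [h, mul_zero] at hδ'; omega
    · exact h
  have hcop : Nat.Coprime z δ := by
    have h1 := Nat.coprime_div_gcd_div_gcd (m := x) (n := d) (by rw [← he]; exact he0)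
    rwa [← he, hzx, hδd] at h1
  have hcop' : IsCoprime (z : ℤ) (δ : ℤ) := Nat.isCoprime_iff_coprime.2 hcop
  have hδz : (0 : ℤ) < δ := by exact_mod_cast hδ0
  have heZ : (0 : ℤ) < e := by exact_mod_cast he0
  have hInz : In T (d * (z : ℤ)) := ⟨d * z, hz, by push_cast; ring⟩
  have hdZ : (d : ℤ) = e * δ := by rw [hδ']; push_cast; ring
  have hxZ : (x : ℤ) = e * z := by rw [hz']; push_cast; ring
  -- the elements of the new semigroup
  have hmem : ∀ w : ℤ, In (T ⊔ AddSubmonoid.closure {x}) (e * w) ↔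
      ∃ (j : ℕ) (u : ℤ), j < δ ∧ w = δ * u + j * z ∧ In T (d * u) := by
    intro w
    constructor
    · rintro ⟨a, ha, haw⟩
      obtain ⟨t, ht, s, hs, rfl⟩ := AddSubmonoid.mem_sup.1 ha
      obtain ⟨i, rfl⟩ := AddSubmonoid.mem_closure_singleton.1 hs
      obtain ⟨u0, hu0⟩ := hT.dvd t ht
      have hu0' : In T (d * (u0 : ℤ)) := ⟨t, ht, by rw [hu0]; push_cast; ring⟩
      refine ⟨i % δ, u0 + (i / δ : ℕ) * z, Nat.mod_lt _ hδ0, ?_, ?_⟩
      · have h1 : (i : ℤ) = δ * (i / δ : ℕ) + (i % δ : ℕ) := by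
          exact_mod_cast (Nat.div_add_mod i δ).symm
        have h2 : (e : ℤ) * w = e * (δ * (u0 + (i / δ : ℕ) * z) + (i % δ : ℕ) * z) := by
          rw [← haw, hu0, smul_eq_mul]
          push_cast
          rw [hdZ, hxZ]
          push_cast at h1
          linear_combination (e * z : ℤ) * h1
        exact mul_left_cancel₀ heZ.ne' h2
      · have h1 := hu0'.add (hInz.nsmul (i / δ))
        convert h1 using 1
        ring
    · rintro ⟨j, u, -, rfl, hu⟩
      obtain ⟨a, ha, hau⟩ := hu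
      refine ⟨a + j * x, AddSubmonoid.mem_sup.2 ⟨a, ha, j * x, ?_, rfl⟩, ?_⟩
      · exact AddSubmonoid.mem_closure_singleton.2 ⟨j, by simp⟩
      · push_cast
        rw [hau, hdZ, hxZ]
        ring
  refine ⟨?_, ?_⟩
  · intro a ha
    obtain ⟨t, ht, s, hs, rfl⟩ := AddSubmonoid.mem_sup.1 ha
    obtain ⟨i, rfl⟩ := AddSubmonoid.mem_closure_singleton.1 hs
    exact dvd_add ((Dvd.intro δ hδ'.symm).trans (hT.dvd t ht))
      (Dvd.dvd.mul_left (Dvd.intro z hz'.symm) i)
  · intro w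
    -- the representation of `w`
    obtain ⟨j, u, hj, hw⟩ : ∃ (j : ℕ) (u : ℤ), j < δ ∧ w = δ * u + j * z := by
      obtain ⟨p, q, hpq⟩ := hcop'
      refine ⟨((w * p) % δ).toNat, w * q + (w * p) / δ * z, ?_, ?_⟩
      · have h1 := Int.emod_lt_of_pos (w * p) hδz
        have h2 := Int.emod_nonneg (w * p) hδz.ne'
        omega
      · have h2 := Int.emod_nonneg (w * p) hδz.ne'
        rw [Int.toNat_of_nonneg h2]
        have h3 := Int.mul_ediv_add_emod (w * p) δ
        linear_combination (-w) * hpq - z * h3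
    have key : ∀ (w' : ℤ) (j' : ℕ) (u' : ℤ), j' < δ → w' = δ * u' + j' * z →
        (In (T ⊔ AddSubmonoid.closure {x}) (e * w') ↔ In T (d * u')) := by
      intro w' j' u' hj' hw'
      rw [hmem]
      constructor
      · rintro ⟨j2, u2, hj2, hw2, hu2⟩
        have h1 : (δ : ℤ) * (u2 - u') = ((j' : ℤ) - j2) * z := by
          linear_combination hw' - hw2
        have h2 : (δ : ℤ) ∣ (j' : ℤ) - j2 := by
          have h3 : (δ : ℤ) ∣ ((j' : ℤ) - j2) * z := ⟨_, h1.symm⟩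
          exact (IsCoprime.symm hcop').dvd_of_dvd_mul_right h3
        have h3 : (j' : ℤ) - j2 = 0 := by
          apply Int.eq_zero_of_abs_lt_dvd h2
          rw [abs_lt]
          constructor <;> omega
        have h4 : u2 = u' := by
          rw [h3, zero_mul] at h1
          rcases mul_eq_zero.1 h1 with h5 | h5
          · omega
          · linarith
        rwa [← h4]
      · intro h
        exact ⟨j', u', hj', hw', h⟩
    rw [key w j u hj hw, hT.sym u]
    have h1 : ((δ : ℕ) * F + ((δ : ℕ) - 1) * (z : ℕ) : ℤ) - w =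
        δ * (F - u) + ((δ - 1 - j : ℕ) : ℤ) * z := by
      rw [hw, Nat.cast_sub (by omega), Nat.cast_sub (by omega)]
      push_cast
      ring
    rw [key _ (δ - 1 - j) (F - u) (by omega) h1]

end Pool.Agent.Sylver
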