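import Pool.Agent.Work.MP_d5e364_co.Glue

/-!
# Telescopic positions
-/

set_option autoImplicit false

namespace Pool.Agent.Sylver

/-- Telescopic positions of greatest common divisor `d`: start with one number `n`; a further
number `x` may be named when `d * (x / gcd x d)` is a sum of the numbers named before. -/
inductive Tel : Finset ℕ → ℕ → Prop
  | single (n : ℕ) (hn : 0 < n) : Tel {n} n
  | step {S : Finset ℕ} {d : ℕ} (x : ℕ) (h : Tel S d) (hx : 0 < x)
      (hmem : d * (x / Nat.gcd x d) ∈ AddSubmonoid.closure (S : Set ℕ)) :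
      Tel (insert x S) (Nat.gcd x d)

lemma closure_insert (S : Finset ℕ) (x : ℕ) :
    AddSubmonoid.closure ((insert x S : Finset ℕ) : Set ℕ) =
      AddSubmonoid.closure (S : Set ℕ) ⊔ AddSubmonoid.closure {x} := by
  rw [Finset.coe_insert, Set.insert_eq, AddSubmonoid.closure_union, sup_comm]

theorem Tel.sym {S : Finset ℕ} {d : ℕ} (h : Tel S d) :
    0 < d ∧ ∃ F : ℤ, SymD d (AddSubmonoid.closure (S : Set ℕ)) F := by
  induction h with
  | single n hn =>
    refine ⟨hn, -1, ?_⟩
    rw [Finset.coe_singleton]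
    exact symD_single hn
  | step x h hx hmem ih =>
    obtain ⟨hd, F, hF⟩ := ih
    have h2 := symD_glue hd hF hx hmem
    rw [← closure_insert] at h2
    exact ⟨Nat.gcd_pos_of_pos_left _ hx, _, h2⟩

lemma In.iff_of_sym {T : AddSubmonoid ℕ} {F : ℤ} (h : SymD 1 T F) (u : ℤ) :
    In T u ↔ ¬ In T (F - u) := by
  have := h.sym u
  simpa using this

/-- A position whose semigroup is symmetric is a win for the player to move, unless 1 has been
named or the semigroup is `⟨2,3⟩`. -/
theorem win_of_sym {S : Finset ℕ} {F : ℤ} (h : SymD 1 (AddSubmonoid.closure (S : Set ℕ)) F)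
    (h1 : 1 ∉ AddSubmonoid.closure (S : Set ℕ))
    (h23 : AddSubmonoid.closure (S : Set ℕ) ≠ AddSubmonoid.closure {2, 3}) : IsWin S := by
  set T := AddSubmonoid.closure (S : Set ℕ) with hT
  have hneg : ∀ u : ℤ, F < u → In T u := fun u hu =>
    (In.iff_of_sym h u).2 fun hc => by have := hc.nonneg; omega
  have hF0 : 0 ≤ F := by
    by_contra hc
    exact h1 (in_natCast.1 (hneg ((1 : ℕ) : ℤ) (by push_cast; omega)))
  obtain ⟨t, rfl⟩ := Int.eq_ofNat_of_zero_le hF0
  have htT : t ∉ T := by
    intro hc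
    have h2 := (In.iff_of_sym h (t : ℤ)).1 (in_natCast.2 hc)
    rw [sub_self] at h2
    exact h2 ⟨0, T.zero_mem, rfl⟩
  have ht1 : t ≠ 1 := by
    rintro rfl
    apply h23
    have h2 : (2 : ℕ) ∈ T := in_natCast.1 (hneg _ (by norm_num))
    have h3 : (3 : ℕ) ∈ T := in_natCast.1 (hneg _ (by norm_num))
    apply le_antisymm
    · intro a ha
      rcases Nat.lt_or_ge a 2 with ha2 | ha2
      · interval_cases a
        · exact AddSubmonoid.zero_mem _
        · exact absurd ha h1
      · rcases Nat.even_or_odd' a with ⟨k, rfl | rfl⟩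
        · have := (AddSubmonoid.closure ({2, 3} : Set ℕ)).nsmul_mem
            (AddSubmonoid.subset_closure (show (2 : ℕ) ∈ ({2, 3} : Set ℕ) by simp)) k
          rw [smul_eq_mul, mul_comm] at this
          exact this
        · have e1 := (AddSubmonoid.closure ({2, 3} : Set ℕ)).nsmul_mem
            (AddSubmonoid.subset_closure (show (2 : ℕ) ∈ ({2, 3} : Set ℕ) by simp)) (k - 1)
          have e2 := (AddSubmonoid.closure ({2, 3} : Set ℕ)).add_mem e1
            (AddSubmonoid.subset_closure (show (3 : ℕ) ∈ ({2, 3} : Set ℕ) by simp))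
          rw [smul_eq_mul] at e2
          have e3 : (k - 1) * 2 + 3 = 2 * k + 1 := by omega
          rwa [e3] at e2
    · rw [AddSubmonoid.closure_le]
      rintro s (rfl | rfl)
      · exact h2
      · exact h3
  have hfin : ((T : Set ℕ)ᶜ).Finite := by
    refine (Set.finite_Iic t).subset fun a ha => ?_
    by_contra hc
    rw [Set.mem_Iic, not_le] at hc
    exact ha (in_natCast.1 (hneg a (by exact_mod_cast hc)))
  refine ender hfin ht1 htT fun y hyt hy => ?_
  have h2 : In T ((t : ℤ) - y) := by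
    by_contra hc
    exact hy (in_natCast.1 ((In.iff_of_sym h (y : ℤ)).2 hc))
  obtain ⟨b, hb, hbt⟩ := h2
  have h3 : t = b + y := by omega
  rw [h3]
  exact AddSubmonoid.add_mem _ (le_insert S y hb) (mem_insert_self' S y)

/-- Telescopic positions of gcd 1 are wins for the player to move. -/
theorem tel_win {S : Finset ℕ} (h : Tel S 1) (h1 : 1 ∉ AddSubmonoid.closure (S : Set ℕ))
    (h23 : AddSubmonoid.closure (S : Set ℕ) ≠ AddSubmonoid.closure {2, 3}) : IsWin S := by
  obtain ⟨-, F, hF⟩ := h.sym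
  exact win_of_sym hF h1 h23

/-! ### Two numbers -/

lemma tel_pair {n m : ℕ} (hn : 0 < n) (hm : 0 < m) : Tel {m, n} (Nat.gcd m n) := by
  refine Tel.step m (Tel.single n hn) hm ?_
  rw [Finset.coe_singleton, AddSubmonoid.mem_closure_singleton]
  exact ⟨m / Nat.gcd m n, by rw [smul_eq_mul, mul_comm]⟩

lemma symD_pair {n m : ℕ} (hn : 0 < n) (hm : 0 < m) :
    SymD (Nat.gcd n m) (AddSubmonoid.closure ({n, m} : Set ℕ))
      (((n / Nat.gcd n m : ℕ) - 1) * ((m / Nat.gcd n m : ℕ) - 1) - 1) := by
  have h := symD_glue hn (symD_single hn) hm (by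
    rw [AddSubmonoid.mem_closure_singleton]
    exact ⟨m / Nat.gcd m n, by rw [smul_eq_mul, mul_comm]⟩)
  rw [Nat.gcd_comm m n, ← AddSubmonoid.closure_union, Set.singleton_union] at h
  have h2 : (((n / Nat.gcd n m : ℕ) - 1) * ((m / Nat.gcd n m : ℕ) - 1) - 1 : ℤ) =
      (n / Nat.gcd n m : ℕ) * (-1) + ((n / Nat.gcd n m : ℕ) - 1) * (m / Nat.gcd n m : ℕ) := by
    ring
  rw [h2]
  exact h

/-- Elements of the closure smaller than two of the generators are multiples of the third. -/
lemma small_mem {n m x : ℕ} {k : ℕ} (hn : k < n) (hm : k < m)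
    (hk : k ∈ AddSubmonoid.closure (({n, m, x} : Finset ℕ) : Set ℕ)) : x ∣ k := by
  have h1 : ∀ a ∈ AddSubmonoid.closure (({n, m, x} : Finset ℕ) : Set ℕ), n ≤ a ∨ m ≤ a ∨ x ∣ a := by
    intro a ha
    induction ha using AddSubmonoid.closure_induction with
    | mem s hs =>
      simp only [Finset.coe_insert, Finset.coe_singleton, Set.mem_insert_iff,
        Set.mem_singleton_iff] at hs
      rcases hs with rfl | rfl | rfl
      · exact Or.inl le_rfl
      · exact Or.inr (Or.inl le_rfl)
      · exact Or.inr (Or.inr dvd_rfl)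
    | zero => exact Or.inr (Or.inr (dvd_zero x))
    | add a b _ _ iha ihb =>
      rcases iha with h | h | h
      · exact Or.inl (by omega)
      · exact Or.inr (Or.inl (by omega))
      · rcases ihb with h' | h' | h'
        · exact Or.inl (by omega)
        · exact Or.inr (Or.inl (by omega))
        · exact Or.inr (Or.inr (dvd_add h h'))
  rcases h1 k hk with h | h | h
  · omega
  · omega
  · exact h

/-- Third moves. -/
theorem third_move {n m x : ℕ} (hn : 0 < n) (hm : 0 < m) (hnm : ¬ n ∣ m) (hmn : ¬ m ∣ n)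
    (hd : 1 < Nat.gcd n m) (hx : 1 < x) (hcop : Nat.Coprime x (Nat.gcd n m))
    (hmem : Nat.gcd n m * x ∈ AddSubmonoid.closure ({n, m} : Set ℕ)) :
    IsWin {n, m, x} := by
  set d := Nat.gcd n m with hdd
  have h1 : Tel (insert x {m, n}) 1 := by
    have h2 := Tel.step x (tel_pair hn hm) (by omega) (by
      rw [Nat.gcd_comm m n, ← hdd, hcop, Nat.div_one]
      rw [Finset.coe_insert, Finset.coe_singleton, Set.pair_comm]
      exact hmem)
    rwa [Nat.gcd_comm m n, ← hdd, hcop] at h2
  have h3 : (insert x {m, n} : Finset ℕ) = {n, m, x} := by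
    ext a; simp only [Finset.mem_insert, Finset.mem_singleton]; tauto
  rw [h3] at h1
  -- both numbers are at least four
  have hn4 : 4 ≤ n := by
    obtain ⟨a, ha⟩ := Nat.gcd_dvd_left n m
    rw [← hdd] at ha
    have ha2 : 2 ≤ a := by
      rcases Nat.lt_or_ge a 2 with h | h
      · interval_cases a
        · omega
        · exfalso; apply hnm
          rw [ha, mul_one, hdd]; exact Nat.gcd_dvd_right n m
      · exact h
    nlinarith
  have hm4 : 4 ≤ m := by
    obtain ⟨a, ha⟩ := Nat.gcd_dvd_right n m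
    rw [← hdd] at ha
    have ha2 : 2 ≤ a := by
      rcases Nat.lt_or_ge a 2 with h | h
      · interval_cases a
        · omega
        · exfalso; apply hmn
          rw [ha, mul_one, hdd]; exact Nat.gcd_dvd_left n m
      · exact h
    nlinarith
  refine tel_win h1 ?_ ?_
  · intro hc
    have := Nat.dvd_one.1 (small_mem (by omega) (by omega) hc)
    omega
  · intro hc
    have h2 : x ∣ 2 := small_mem (n := n) (m := m) (by omega) (by omega) (by
      rw [hc]; exact AddSubmonoid.subset_closure (by simp))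
    have h3 : x ∣ 3 := small_mem (n := n) (m := m) (by omega) (by omega) (by
      rw [hc]; exact AddSubmonoid.subset_closure (by simp))
    have h4 : x ∣ 1 := by
      have := Nat.dvd_sub h3 h2
      simpa using this
    have := Nat.dvd_one.1 h4
    omega

lemma gap_bound {n m z : ℕ} (hn : 0 < n) (hm : 0 < m)
    (hz : (n / Nat.gcd n m - 1) * (m / Nat.gcd n m - 1) ≤ z) :
    Nat.gcd n m * z ∈ AddSubmonoid.closure ({n, m} : Set ℕ) := by
  have hg : 0 < Nat.gcd n m := Nat.gcd_pos_of_pos_left _ hn
  have ha : 0 < n / Nat.gcd n m := Nat.div_pos (Nat.le_of_dvd hn (Nat.gcd_dvd_left n m)) hg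
  have hb : 0 < m / Nat.gcd n m := Nat.div_pos (Nat.le_of_dvd hm (Nat.gcd_dvd_right n m)) hg
  have h1 := (symD_pair hn hm).sym z
  apply in_natCast.1
  have h2 : ((Nat.gcd n m * z : ℕ) : ℤ) = (Nat.gcd n m : ℤ) * (z : ℤ) := by push_cast; ring
  rw [h2, h1]
  intro hc
  have h3 := hc.nonneg
  have h4 : (0 : ℤ) < Nat.gcd n m := by exact_mod_cast hg
  have h5 := nonneg_of_mul_nonneg_right h3 h4
  have h6 : (((n / Nat.gcd n m - 1) * (m / Nat.gcd n m - 1) : ℕ) : ℤ) =
      ((n / Nat.gcd n m : ℕ) - 1) * ((m / Nat.gcd n m : ℕ) - 1) := by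
    rw [Nat.cast_mul, Nat.cast_sub ha, Nat.cast_sub hb]
    push_cast
    ring
  have h7 : (((n / Nat.gcd n m - 1) * (m / Nat.gcd n m - 1) : ℕ) : ℤ) ≤ z := by exact_mod_cast hz
  rw [h6] at h7
  linarith

theorem third_move_bound {n m x : ℕ} (hn : 0 < n) (hm : 0 < m) (hnm : ¬ n ∣ m) (hmn : ¬ m ∣ n)
    (hd : 1 < Nat.gcd n m) (hx : 1 < x) (hcop : Nat.Coprime x (Nat.gcd n m))
    (hb : (n / Nat.gcd n m - 1) * (m / Nat.gcd n m - 1) ≤ x) :
    IsWin {n, m, x} :=
  third_move hn hm hnm hmn hd hx hcop (gap_bound hn hm hb)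

theorem two_three {d x : ℕ} (hd : 1 < d) (hx : 1 < x) (hcop : Nat.Coprime x d) :
    IsWin {2 * d, 3 * d, x} := by
  have h1 : Nat.gcd (2 * d) (3 * d) = d := by
    rw [Nat.gcd_mul_right]; norm_num
  refine third_move_bound (by omega) (by omega) ?_ ?_ (by rw [h1]; exact hd) hx
    (by rw [h1]; exact hcop) ?_
  · intro h
    have := Nat.dvd_of_mul_dvd_mul_right (by omega : 0 < d) h
    omega
  · intro h
    have := Nat.dvd_of_mul_dvd_mul_right (by omega : 0 < d) h
    omega
  · rw [h1, Nat.mul_div_cancel _ (by omega), Nat.mul_div_cancel _ (by omega)]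
    omega

/-- The finite criterion for positions `{n,m}` of prime greatest common divisor. -/
theorem prime_criterion {n m : ℕ} (hn : 0 < n) (hm : 0 < m) (hnm : ¬ n ∣ m) (hmn : ¬ m ∣ n)
    (hp : (Nat.gcd n m).Prime) :
    IsLose {n, m} ↔ ∀ x : ℕ, 1 < x → x * Nat.gcd n m < n * m →
      x ∉ AddSubmonoid.closure ({n, m} : Set ℕ) →
      Nat.gcd n m * (x / Nat.gcd x (Nat.gcd n m)) ∉ AddSubmonoid.closure ({n, m} : Set ℕ) →
      IsWin {n, m, x} := by
  have hins : ∀ x : ℕ, (insert x {n, m} : Finset ℕ) = {n, m, x} := by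
    intro x
    ext a; simp only [Finset.mem_insert, Finset.mem_singleton]; tauto
  have hcoe : ((({n, m} : Finset ℕ)) : Set ℕ) = {n, m} := by simp
  constructor
  · intro h x hx _ hxm _
    have := lose_inv h x (by omega) (by rwa [hcoe])
    rwa [hins] at this
  · intro h
    refine lose_of fun x hx1 hxm => ?_
    rw [hcoe] at hxm
    rw [hins]
    have hx0 : x ≠ 0 := by
      rintro rfl
      exact hxm (AddSubmonoid.zero_mem _)
    have hx : 1 < x := by omega
    set d := Nat.gcd n m with hd
    have hd0 : 0 < d := hp.pos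
    obtain ⟨a, ha⟩ : d ∣ n := Nat.gcd_dvd_left n m
    obtain ⟨b, hb⟩ : d ∣ m := Nat.gcd_dvd_right n m
    have ha0 : 0 < a := by
      rcases Nat.eq_zero_or_pos a with h0 | h0
      · rw [h0, mul_zero] at ha; omega
      · exact h0
    have hb0 : 0 < b := by
      rcases Nat.eq_zero_or_pos b with h0 | h0
      · rw [h0, mul_zero] at hb; omega
      · exact h0
    have hna : n / d = a := by rw [ha, Nat.mul_div_cancel_left _ hd0]
    have hmb : m / d = b := by rw [hb, Nat.mul_div_cancel_left _ hd0]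
    -- gaps are small
    have hgap : ∀ z : ℕ, d * z ∉ AddSubmonoid.closure ({n, m} : Set ℕ) → z < a * b := by
      intro z hz
      by_contra hc
      push Not at hc
      apply hz
      have h1 : (n / Nat.gcd n m - 1) * (m / Nat.gcd n m - 1) ≤ z := by
        rw [← hd, hna, hmb]
        exact (Nat.mul_le_mul (Nat.sub_le _ _) (Nat.sub_le _ _)).trans hc
      have h2 := gap_bound hn hm h1
      rwa [← hd] at h2
    rcases (Nat.dvd_prime hp).1 (Nat.gcd_dvd_right x d) with hg | hg
    · -- coprime to `d`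
      by_cases hmem : d * x ∈ AddSubmonoid.closure ({n, m} : Set ℕ)
      · exact third_move hn hm hnm hmn hp.one_lt hx hg (by rwa [← hd])
      · refine h x hx ?_ hxm (by rwa [hg, Nat.div_one])
        have h1 := hgap x hmem
        have h2 : a * b ≤ a * b * d := Nat.le_mul_of_pos_right _ hd0
        calc x * d < a * b * d := (Nat.mul_lt_mul_right hd0).2 h1
          _ ≤ a * b * d * d := Nat.le_mul_of_pos_right _ hd0
          _ = n * m := by rw [ha, hb]; ring
    · -- divisible by `d`
      obtain ⟨z, hz⟩ : d ∣ x := by rw [← hg]; exact Nat.gcd_dvd_left x d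
      have hxz : d * (x / Nat.gcd x d) = x := by
        rw [hg, hz, Nat.mul_div_cancel_left _ hd0]
      refine h x hx ?_ hxm (by rwa [hxz])
      have h1 := hgap z (by rwa [← hz])
      calc x * d = z * (d * d) := by rw [hz]; ring
        _ < a * b * (d * d) := (Nat.mul_lt_mul_right (by positivity)).2 h1
        _ = n * m := by rw [ha, hb]; ring

end Pool.Agent.Sylver
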