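import Pool.Agent.Work.MP_d5e364_co.Tel

/-!
# Moves after a telescopic position
-/

set_option autoImplicit false

namespace Pool.Agent.Sylver

theorem win_inv {S : Finset ℕ} (h : IsWin S) :
    ∃ m : ℕ, m ≠ 1 ∧ m ∉ AddSubmonoid.closure (S : Set ℕ) ∧ IsLose (insert m S) :=
  h (fun S => ∃ m : ℕ, m ≠ 1 ∧ m ∉ AddSubmonoid.closure (S : Set ℕ) ∧ IsLose (insert m S)) IsLose
    (fun _ h => h) (fun _ h => lose_of fun m h1 h2 => by
      obtain ⟨y, hy1, hy2, hy3⟩ := h m h1 h2
      exact win_of hy1 hy2 hy3)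

/-- Elements of the closure of `insert x S`, when `S` consists of multiples of `d`. -/
lemma mem_insert_iff_exists {S : Finset ℕ} {x y : ℕ} :
    y ∈ AddSubmonoid.closure ((insert x S : Finset ℕ) : Set ℕ) ↔
      ∃ s ∈ AddSubmonoid.closure (S : Set ℕ), ∃ k : ℕ, y = s + k * x := by
  rw [closure_insert, AddSubmonoid.mem_sup]
  constructor
  · rintro ⟨s, hs, t, ht, rfl⟩
    obtain ⟨k, rfl⟩ := AddSubmonoid.mem_closure_singleton.1 ht
    exact ⟨s, hs, k, by simp⟩
  · rintro ⟨s, hs, k, rfl⟩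
    exact ⟨s, hs, k * x, AddSubmonoid.mem_closure_singleton.2 ⟨k, by simp⟩, rfl⟩

/-- In a telescopic position of greatest common divisor `d > 1` in which `d` may still be named,
every `x > 1` coprime to `d` with `d * x` a sum of the named numbers is a losing move. -/
theorem tel_reply {S : Finset ℕ} {d x : ℕ} (hS : Tel S d) (hd : 1 < d)
    (hdS : d ∉ AddSubmonoid.closure (S : Set ℕ)) (hx : 1 < x) (hcop : Nat.Coprime x d)
    (hmem : d * x ∈ AddSubmonoid.closure (S : Set ℕ)) : IsWin (insert x S) := by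
  obtain ⟨-, F, hF⟩ := hS.sym
  have h1 : Tel (insert x S) 1 := by
    have h2 := Tel.step x hS (by omega) (by rwa [hcop, Nat.div_one])
    rwa [hcop] at h2
  refine tel_win h1 ?_ ?_
  · intro hc
    obtain ⟨s, hs, k, hk⟩ := mem_insert_iff_exists.1 hc
    obtain ⟨j, rfl⟩ := hF.dvd s hs
    rcases Nat.eq_zero_or_pos j with rfl | hj
    · rcases Nat.eq_zero_or_pos k with rfl | hk0
      · omega
      · nlinarith
    · nlinarith
  · intro hc
    have h2 : (2 : ℕ) ∈ AddSubmonoid.closure ((insert x S : Finset ℕ) : Set ℕ) := by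
      rw [hc]; exact AddSubmonoid.subset_closure (by simp)
    have h3 : (3 : ℕ) ∈ AddSubmonoid.closure ((insert x S : Finset ℕ) : Set ℕ) := by
      rw [hc]; exact AddSubmonoid.subset_closure (by simp)
    obtain ⟨s, hs, k, hk⟩ := mem_insert_iff_exists.1 h2
    obtain ⟨s', hs', k', hk'⟩ := mem_insert_iff_exists.1 h3
    obtain ⟨j, rfl⟩ := hF.dvd s hs
    obtain ⟨j', rfl⟩ := hF.dvd s' hs'
    have hj : j ≤ 1 := by nlinarith [Nat.zero_le (k * x)]
    have hj' : j' ≤ 1 := by nlinarith [Nat.zero_le (k' * x)]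
    have hkk : k ≤ 1 := by nlinarith [Nat.zero_le (d * j)]
    have hkk' : k' ≤ 1 := by nlinarith [Nat.zero_le (d * j')]
    have e1 : j ≠ 1 := fun h => hdS (by rw [h, mul_one] at hs; exact hs)
    have e2 : j' ≠ 1 := fun h => hdS (by rw [h, mul_one] at hs'; exact hs')
    have hj0 : j = 0 := by omega
    have hj0' : j' = 0 := by omega
    subst hj0 hj0'
    interval_cases k <;> interval_cases k' <;> omega

theorem large_mem {S : Finset ℕ} {d : ℕ} (hS : Tel S d) :
    ∃ N : ℕ, ∀ z : ℕ, N ≤ z → d * z ∈ AddSubmonoid.closure (S : Set ℕ) := by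
  obtain ⟨hd, F, hF⟩ := hS.sym
  refine ⟨(F + 1).toNat, fun z hz => ?_⟩
  have hz' : F < z := by omega
  have h1 := (hF.sym z).2 (fun hc => by
    have h2 := hc.nonneg
    have h3 : (0 : ℤ) < d := by exact_mod_cast hd
    have h4 := nonneg_of_mul_nonneg_right h2 h3
    omega)
  apply in_natCast.1
  push_cast
  exact h1

theorem finite_coprime {S : Finset ℕ} {d : ℕ} (hS : Tel S d) :
    {x : ℕ | Nat.Coprime x d ∧ d * x ∉ AddSubmonoid.closure (S : Set ℕ)}.Finite := by
  obtain ⟨N, hN⟩ := large_mem hS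
  refine (Set.finite_lt_nat N).subset fun x hx => ?_
  by_contra hc
  rw [Set.mem_setOf_eq, not_lt] at hc
  exact hx.2 (hN x hc)

/-- Telescopic positions of prime greatest common divisor `p`: all but finitely many moves are
known to lose, and the position is decided by the remaining ones. -/
theorem tel_criterion {S : Finset ℕ} {p : ℕ} (hS : Tel S p) (hp : p.Prime)
    (hpS : p ∉ AddSubmonoid.closure (S : Set ℕ)) :
    {x : ℕ | p * (x / Nat.gcd x p) ∉ AddSubmonoid.closure (S : Set ℕ)}.Finite ∧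
    (IsLose S ↔ ∀ x : ℕ, 1 < x → p * (x / Nat.gcd x p) ∉ AddSubmonoid.closure (S : Set ℕ) →
      IsWin (insert x S)) := by
  obtain ⟨-, F, hF⟩ := hS.sym
  constructor
  · obtain ⟨N, hN⟩ := large_mem hS
    refine (Set.finite_lt_nat (N * p)).subset fun x hx => ?_
    by_contra hc
    rw [Set.mem_setOf_eq, not_lt] at hc
    refine hx (hN _ ?_)
    have h1 : Nat.gcd x p ≤ p := Nat.le_of_dvd hp.pos (Nat.gcd_dvd_right x p)
    have h2 : 0 < Nat.gcd x p := Nat.gcd_pos_of_pos_right _ hp.pos
    rw [Nat.le_div_iff_mul_le h2]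
    exact (Nat.mul_le_mul_left N h1).trans hc
  · have hmem : ∀ x : ℕ, p * (x / Nat.gcd x p) ∉ AddSubmonoid.closure (S : Set ℕ) →
        x ∉ AddSubmonoid.closure (S : Set ℕ) := by
      intro x hx hc
      obtain ⟨j, rfl⟩ := hF.dvd x hc
      apply hx
      rwa [Nat.gcd_mul_right_left, Nat.mul_div_cancel_left _ hp.pos]
    constructor
    · intro h x hx hxm
      exact lose_inv h x (by omega) (hmem x hxm)
    · intro h
      refine lose_of fun x hx1 hxm => ?_
      have hx0 : x ≠ 0 := by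
        rintro rfl
        exact hxm (AddSubmonoid.zero_mem _)
      have hx : 1 < x := by omega
      by_cases hm : p * (x / Nat.gcd x p) ∈ AddSubmonoid.closure (S : Set ℕ)
      · rcases (Nat.dvd_prime hp).1 (Nat.gcd_dvd_right x p) with hg | hg
        · rw [hg, Nat.div_one] at hm
          exact tel_reply hS hp.one_lt hpS hx hg hm
        · exfalso
          rw [hg] at hm
          obtain ⟨z, hz⟩ : p ∣ x := by rw [← hg]; exact Nat.gcd_dvd_left x p
          rw [hz, Nat.mul_div_cancel_left _ hp.pos, ← hz] at hm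
          exact hxm hm
      · exact h x hx hm

end Pool.Agent.Sylver
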